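import Pool.Agent.Helper66_ML.Stmts
import Pool.Agent.Helper91_WRA.Inter
import Pool.Agent.Helper51_CC.Contr

/-!
ML, module COX: the chains of nontrivial `ℓ`-subgroups fixed by a group with a nontrivial normal
`ℓ`-subgroup cancel.
-/

open scoped BigOperators

noncomputable section

namespace Pool.Agent.PP.ML.H3

open Pool.Agent.Helper51_AWC Pool.Agent.Helper79_WRA Pool.Agent.PP Pool.Agent.Helper98_CC

/-- the `ℓ`-subgroups of `G` normalised by `L` -/
def pfix (ℓ : ℕ) {G : Type} [Group G] [Finite G] (L : Subgroup G) : Finset (Subgroup G) :=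
  (Set.toFinite {D : Subgroup G | IsPGroup ℓ D ∧
    L ≤ Subgroup.normalizer (D : Set G)}).toFinset

theorem mem_pfix {ℓ : ℕ} {G : Type} [Group G] [Finite G] {L D : Subgroup G} :
    D ∈ pfix ℓ L ↔ IsPGroup ℓ D ∧ L ≤ Subgroup.normalizer (D : Set G) := by
  simp [pfix]

theorem le_stab {G : Type} [Group G] {L : Subgroup G} {d : Finset (Subgroup G)} :
    L ≤ stab d ↔ ∀ D ∈ d, L ≤ Subgroup.normalizer (D : Set G) := by
  unfold stab
  simp only [le_iInf_iff]

theorem cox : CoxStmt := by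
  classical
  intro ℓ _ G _ _ L U hU hp hUL hLU
  have hfin : ({d | d ∈ pChains ℓ G ∧ L ≤ stab d} : Set (Finset (Subgroup G))).Finite :=
    Set.toFinite _
  have e1 : ∑ᶠ (d : Finset (Subgroup G)) (_ : d ∈ pChains ℓ G ∧ L ≤ stab d), (-1 : ℤ) ^ d.card =
      ∑ v ∈ chainsOn (pfix ℓ L) ⊥, (-1 : ℤ) ^ (v.card + 1) := by
    have e0 : ∑ᶠ (d : Finset (Subgroup G)) (_ : d ∈ pChains ℓ G ∧ L ≤ stab d),
        (-1 : ℤ) ^ d.card =
        ∑ᶠ (d : Finset (Subgroup G)) (_ : d ∈ {d | d ∈ pChains ℓ G ∧ L ≤ stab d}),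
          (-1 : ℤ) ^ d.card := rfl
    rw [e0, finsum_mem_eq_finite_toFinset_sum _ hfin]
    refine Finset.sum_bij' (fun d _ => insert ⊥ d) (fun v _ => v.erase ⊥) ?_ ?_ ?_ ?_ ?_
    · intro d hd
      have hd' : d ∈ pChains ℓ G ∧ L ≤ stab d := by simpa using hd
      have hs := le_stab.1 hd'.2
      rw [mem_chainsOn]
      refine ⟨?_, Finset.mem_insert_self _ _, ?_⟩
      · intro D hD
        rw [mem_pfix]
        rcases Finset.mem_insert.1 hD with rfl | hD
        · exact ⟨IsPGroup.of_bot, by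
            intro g _
            rw [mem_normalizer_iff_conjS]
            exact Subgroup.map_bot _⟩
        · exact ⟨(hd'.1.1 D hD).2, hs D hD⟩
      · rw [Finset.coe_insert]
        exact hd'.1.2.insert fun D _ _ => Or.inl bot_le
    · intro v hv
      obtain ⟨h1, h2, h3⟩ := mem_chainsOn.1 hv
      rw [Set.Finite.mem_toFinset]
      refine ⟨⟨fun D hD => ⟨Finset.ne_of_mem_erase hD,
        (mem_pfix.1 (h1 (Finset.mem_of_mem_erase hD))).1⟩, ?_⟩, ?_⟩
      · exact h3.mono fun D hD => Finset.mem_of_mem_erase hD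
      · exact le_stab.2 fun D hD => (mem_pfix.1 (h1 (Finset.mem_of_mem_erase hD))).2
    · intro d hd
      have hd' : d ∈ pChains ℓ G ∧ L ≤ stab d := by simpa using hd
      exact Finset.erase_insert fun h => (hd'.1.1 ⊥ h).1 rfl
    · intro v hv
      exact Finset.insert_erase (mem_chainsOn.1 hv).2.1
    · intro d hd
      have hd' : d ∈ pChains ℓ G ∧ L ≤ stab d := by simpa using hd
      rw [Finset.card_insert_of_notMem fun h => (hd'.1.1 ⊥ h).1 rfl]
      ring
  rw [e1]
  refine H91.cone (Subgroup G) (pfix ℓ L) ⊥ U (fun x => x ⊔ U)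
    (fun h => hU (le_bot_iff.1 h)) (fun _ _ => bot_le) ?_
    (fun _ _ => le_sup_left) (fun _ _ => le_sup_right) (fun x _ y _ h1 h2 => sup_le h1 h2)
    (fun v => (-1 : ℤ) ^ (v.card + 1)) ?_
  · intro x hx
    rw [mem_pfix] at hx ⊢
    refine ⟨hx.1.to_sup_of_normal_left' hp (hUL.trans hx.2), ?_⟩
    intro g hg
    have h1 := hx.2 hg
    have h2 := hLU hg
    rw [mem_normalizer_iff_conjS] at h1 h2 ⊢
    have h3 : conjS g (x ⊔ U) = conjS g x ⊔ conjS g U := Subgroup.map_sup _ _ _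
    rw [h3, h1, h2]
  · intro d _ x hx hnot
    rw [Finset.card_insert_of_notMem hnot]
    ring

end Pool.Agent.PP.ML.H3
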